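import Pool.Agent.W76.MO.Stmts

/-!
# MP_a187e6_nt, task FB: few cells with few primes
-/

set_option autoImplicit false

namespace Pool.Agent.W475.MO

open Finset Filter Topology Pool.Agent.W76.MO
open scoped Classical

lemma ev_pow_le (C : ℝ) (K : ℕ) {c : ℝ} (hc : 0 < c) :
    ∀ᶠ i : ℕ in atTop, C * (i : ℝ) ^ K ≤ (2 : ℝ) ^ (c * i) := by
  have h1 : (1 : ℝ) < (2 : ℝ) ^ c := Real.one_lt_rpow (by norm_num) hc
  have h2 := (tendsto_pow_const_div_const_pow_of_one_lt K h1).const_mul C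
  rw [mul_zero] at h2
  filter_upwards [h2.eventually (gt_mem_nhds (zero_lt_one))] with i hi
  have h3 : (2 : ℝ) ^ (c * i) = ((2 : ℝ) ^ c) ^ i := by
    rw [Real.rpow_mul (by norm_num), Real.rpow_natCast]
  have h4 : 0 < ((2 : ℝ) ^ c) ^ i := by positivity
  rw [h3]
  have h5 : C * ((i : ℝ) ^ K / ((2 : ℝ) ^ c) ^ i) = C * (i : ℝ) ^ K / ((2 : ℝ) ^ c) ^ i := by ring
  rw [h5, div_lt_one h4] at hi
  exact hi.le

lemma hh_lower (δ : ℝ) (i : ℕ) : (2 : ℝ) ^ ((1 / 2 - δ) * i - 1) ≤ hh δ i := by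
  unfold hh
  push_cast
  rw [← Real.rpow_natCast]
  apply Real.rpow_le_rpow_of_exponent_le (by norm_num)
  have := Nat.lt_floor_add_one ((1 / 2 - δ) * i)
  linarith

lemma hh_le_two_pow {δ : ℝ} (h0 : 0 < δ) (_h1 : δ < 1 / 4) (i : ℕ) : hh δ i ≤ 2 ^ i := by
  unfold hh
  apply Nat.pow_le_pow_right (by norm_num)
  apply Nat.floor_le_of_le
  have : (0 : ℝ) ≤ i := Nat.cast_nonneg i
  nlinarith

lemma hh_pos (δ : ℝ) (i : ℕ) : 0 < hh δ i := by
  unfold hh
  positivity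

/-- task FB -/
theorem fb : T_FB := by
  intro hB hC hRH
  obtain ⟨c, L, hc, hL, hCL⟩ := hC
  refine ⟨c, hc, fun δ ε hδ hδ' hε => ?_⟩
  set e : ℝ := min ε 1 with he
  have he0 : 0 < e := lt_min hε one_pos
  have he1 : e ≤ 1 := min_le_right _ _
  have hee : e ≤ ε := min_le_left _ _
  obtain ⟨C, hC0, hBC⟩ := hB hRH (1 / 2 + e / 8) c (by linarith) (by linarith) hc
  obtain ⟨i₀, hi₀, hcell⟩ := hCL δ hδ hδ'
  have ev1 := ev_pow_le (4 * C * L ^ 2) 2 (c := ε / 2) (by linarith)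
  have ev2 := ev_pow_le (2 * L) 0 (c := 1 / 4) (by norm_num)
  obtain ⟨i₁, hi₁⟩ := Filter.eventually_atTop.1 (ev1.and ev2)
  refine ⟨max i₀ i₁, le_trans hi₀ (le_max_left _ _), fun i hi => ?_⟩
  have hi0 : i₀ ≤ i := le_trans (le_max_left _ _) hi
  obtain ⟨hk1, hk2⟩ := hi₁ i (le_trans (le_max_right _ _) hi)
  have hipos : 1 ≤ i := le_trans hi₀ hi0
  have hir : (1 : ℝ) ≤ i := by exact_mod_cast hipos
  set h : ℝ := (hh δ i : ℝ) with hh_def
  have hh0 : 0 < h := by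
    rw [hh_def]
    exact_mod_cast hh_pos δ i
  have hhle : h ≤ 2 ^ i := by
    rw [hh_def]
    exact_mod_cast hh_le_two_pow hδ hδ' i
  have hlow : (2 : ℝ) ^ ((1 / 2 - δ) * i - 1) ≤ h := hh_lower δ i
  have hLh : L ≤ h := by
    have h1 : (2 : ℝ) ^ ((1 / 4 : ℝ) * i) / 2 ≤ (2 : ℝ) ^ ((1 / 2 - δ) * i - 1) := by
      rw [Real.rpow_sub_one (by norm_num)]
      apply div_le_div_of_nonneg_right _ (by norm_num)
      apply Real.rpow_le_rpow_of_exponent_le (by norm_num)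
      nlinarith
    rw [pow_zero, mul_one] at hk2
    linarith
  set Y : Finset ℝ := ((range (nc δ i)).filter (fun k =>
      (((cell δ i k).filter Nat.Prime).card : ℝ) < c * hh δ i / i)).image
      (fun k : ℕ => (2 : ℝ) ^ i + (k + 1 / 2) * h) with hY
  have hcard : Y.card = ((range (nc δ i)).filter (fun k =>
      (((cell δ i k).filter Nat.Prime).card : ℝ) < c * hh δ i / i)).card := by
    apply Finset.card_image_of_injOn
    intro a _ b _ hab
    simp only at hab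
    have h1 : ((a : ℝ) + 1 / 2) * h = (b + 1 / 2) * h := by linarith
    have h2 := mul_right_cancel₀ hh0.ne' h1
    have h3 : (a : ℝ) = b := by linarith
    exact_mod_cast h3
  have hX0 : (0 : ℝ) < 2 ^ i := by positivity
  have hX2 : (2 : ℝ) ≤ 2 ^ i := by
    calc (2 : ℝ) = 2 ^ 1 := by norm_num
      _ ≤ 2 ^ i := pow_le_pow_right₀ (by norm_num) hipos
  have hL0 : 0 < L := by linarith
  have hηX : h / (L * 2 ^ i) * 2 ^ i = h / L := by
    field_simp
  have hmain := hBC (2 ^ i) (h / (L * 2 ^ i)) hX2 (by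
      rw [div_le_div_iff₀ hX0 (by positivity)]
      nlinarith) (by
      rw [div_le_one (by positivity)]
      nlinarith) Y (by
      intro y hy
      rw [hY, Finset.mem_image] at hy
      obtain ⟨k, hk, rfl⟩ := hy
      have hk' := (Finset.mem_filter.1 hk).1
      rw [Finset.mem_range] at hk'
      have h1 : (k + 1) * hh δ i ≤ 2 ^ i :=
        le_trans (Nat.mul_le_mul_right _ hk') (Nat.div_mul_le_self _ _)
      have h2 : ((k : ℝ) + 1) * h ≤ 2 ^ i := by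
        rw [hh_def]
        exact_mod_cast h1
      have h3 : (0 : ℝ) ≤ k := Nat.cast_nonneg k
      constructor
      · nlinarith
      · nlinarith) (by
      intro y hy y' hy' hne
      rw [hY, Finset.mem_image] at hy hy'
      obtain ⟨k, hk, rfl⟩ := hy
      obtain ⟨k', hk', rfl⟩ := hy'
      rw [hηX]
      have hne' : k ≠ k' := by
        rintro rfl
        exact hne rfl
      have h1 : (1 : ℝ) ≤ |(k : ℝ) - k'| := by
        have : (1 : ℤ) ≤ |(k : ℤ) - k'| := by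
          apply Int.one_le_abs
          intro h0
          apply hne'
          omega
        have h2 : ((1 : ℤ) : ℝ) ≤ ((|(k : ℤ) - k'| : ℤ) : ℝ) := by exact_mod_cast this
        push_cast at h2
        exact h2
      have h2 : (2 : ℝ) ^ i + (k + 1 / 2) * h - (2 ^ i + (k' + 1 / 2) * h) =
          ((k : ℝ) - k') * h := by ring
      rw [h2, abs_mul, abs_of_pos hh0]
      calc h / L ≤ h := div_le_self hh0.le hL
        _ ≤ |(k : ℝ) - k'| * h := by nlinarith) (by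
      intro y hy
      rw [hY, Finset.mem_image] at hy
      obtain ⟨k, hk, rfl⟩ := hy
      have hk' := Finset.mem_filter.1 hk
      exact hcell i hi0 k (Finset.mem_range.1 hk'.1) hk'.2)
  rw [hcard] at hmain
  refine hmain.trans ?_
  -- numerical estimate
  have hlog : Real.log ((2 : ℝ) ^ i) ≤ i := by
    rw [Real.log_pow]
    have : Real.log 2 ≤ 1 := by
      have := Real.log_two_lt_d9
      linarith
    nlinarith
  have hlog0 : 0 ≤ Real.log ((2 : ℝ) ^ i) := Real.log_nonneg (by linarith)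
  have hlog2 : (Real.log ((2 : ℝ) ^ i)) ^ 2 ≤ (i : ℝ) ^ 2 := pow_le_pow_left₀ hlog0 hlog 2
  have hinv : 1 / (h / (L * 2 ^ i)) ^ 2 ≤ 4 * L ^ 2 * (2 : ℝ) ^ ((1 + 2 * δ) * (i : ℝ)) := by
    rw [div_pow, one_div_div, mul_pow]
    have h1 : ((2 : ℝ) ^ ((1 / 2 - δ) * i - 1)) ^ 2 ≤ h ^ 2 :=
      pow_le_pow_left₀ (by positivity) hlow 2
    have h2 : ((2 : ℝ) ^ ((1 / 2 - δ) * i - 1)) ^ 2 = (2 : ℝ) ^ ((1 - 2 * δ) * (i : ℝ)) / 4 := by
      rw [← Real.rpow_natCast, ← Real.rpow_mul (by norm_num)]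
      have : ((1 / 2 - δ) * i - 1) * ((2 : ℕ) : ℝ) = (1 - 2 * δ) * (i : ℝ) - 2 := by
        push_cast
        ring
      rw [this, Real.rpow_sub (by norm_num)]
      norm_num
    rw [h2] at h1
    rw [div_le_iff₀ (by positivity)]
    have h3 : (2 : ℝ) ^ ((1 + 2 * δ) * (i : ℝ)) * (2 : ℝ) ^ ((1 - 2 * δ) * (i : ℝ)) =
        ((2 : ℝ) ^ i) ^ 2 := by
      rw [← Real.rpow_add (by norm_num), ← pow_mul, ← Real.rpow_natCast]
      congr 1
      push_cast
      ring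
    calc L ^ 2 * ((2 : ℝ) ^ i) ^ 2 = 4 * L ^ 2 * (2 : ℝ) ^ ((1 + 2 * δ) * (i : ℝ)) *
          ((2 : ℝ) ^ ((1 - 2 * δ) * (i : ℝ)) / 4) := by
          rw [← h3]
          ring
      _ ≤ _ := mul_le_mul_of_nonneg_left h1 (by positivity)
  have hXp : ((2 : ℝ) ^ i) ^ (2 * (1 / 2 + e / 8) - 2) = (2 : ℝ) ^ ((e / 4 - 1) * (i : ℝ)) := by
    rw [← Real.rpow_natCast, ← Real.rpow_mul (by norm_num)]
    congr 1
    ring
  rw [hXp, div_eq_mul_one_div]
  calc C * Real.log (2 ^ i) ^ 2 * (2 : ℝ) ^ ((e / 4 - 1) * (i : ℝ)) *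
        (1 / (h / (L * 2 ^ i)) ^ 2) ≤
      C * (i : ℝ) ^ 2 * (2 : ℝ) ^ ((e / 4 - 1) * (i : ℝ)) *
        (4 * L ^ 2 * (2 : ℝ) ^ ((1 + 2 * δ) * (i : ℝ))) := by
        apply mul_le_mul _ hinv (by positivity) (by positivity)
        apply mul_le_mul_of_nonneg_right _ (by positivity)
        exact mul_le_mul_of_nonneg_left hlog2 hC0.le
    _ = (4 * C * L ^ 2 * (i : ℝ) ^ 2) * ((2 : ℝ) ^ ((e / 4 - 1) * (i : ℝ)) *
        (2 : ℝ) ^ ((1 + 2 * δ) * (i : ℝ))) := by ring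
    _ ≤ (2 : ℝ) ^ (ε / 2 * i) * ((2 : ℝ) ^ ((e / 4 - 1) * (i : ℝ)) *
        (2 : ℝ) ^ ((1 + 2 * δ) * (i : ℝ))) :=
        mul_le_mul_of_nonneg_right hk1 (by positivity)
    _ = (2 : ℝ) ^ ((ε / 2 + e / 4 + 2 * δ) * (i : ℝ)) := by
        rw [← Real.rpow_add (by norm_num), ← Real.rpow_add (by norm_num)]
        congr 1
        ring
    _ ≤ (2 : ℝ) ^ ((2 * δ + ε) * (i : ℝ)) := by
        apply Real.rpow_le_rpow_of_exponent_le (by norm_num)
        nlinarith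

end Pool.Agent.W475.MO
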