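import Pool.Agent.W76.MO.Stmts
import Pool.Agent.Helper242.KK.ShiftLine

/-!
# MP_a187e6_nt, task GI: the Gaussian explicit formula
-/

set_option autoImplicit false

namespace Pool.Agent.W475.MO

open Complex MeasureTheory Filter Topology Set Pool.Agent.W76.MO

/-- the Gaussian kernel -/
noncomputable def G (η L : ℝ) (s : ℂ) : ℂ := cexp ((η : ℂ) ^ 2 / 2 * s ^ 2 + s * L)

lemma norm_G (η L c t : ℝ) : ‖G η L ((c : ℂ) + t * I)‖ =
    Real.exp (η ^ 2 / 2 * c ^ 2 + c * L) * Real.exp (-(η ^ 2 / 2) * t ^ 2) := by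
  rw [G, Complex.norm_exp, ← Real.exp_add]
  congr 1
  have h1 : (η : ℂ) ^ 2 / 2 * ((c : ℂ) + t * I) ^ 2 + ((c : ℂ) + t * I) * L =
      ((η ^ 2 / 2 * (c ^ 2 - t ^ 2) + c * L : ℝ) : ℂ) +
        ((η ^ 2 * c * t + t * L : ℝ) : ℂ) * I := by
    push_cast
    have h2 : (I : ℂ) ^ 2 = -1 := I_sq
    linear_combination ((η : ℂ) ^ 2 / 2 * t ^ 2) * h2
  rw [h1, Complex.add_re, Complex.ofReal_re, Complex.re_ofReal_mul, I_re]
  ring

lemma integrable_G {η : ℝ} (hη : 0 < η) (L c : ℝ) :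
    Integrable (fun t : ℝ => ‖G η L ((c : ℂ) + t * I)‖) := by
  simp_rw [norm_G]
  exact (integrable_exp_neg_mul_sq (by positivity)).const_mul _

lemma continuous_G (η L c : ℝ) : Continuous (fun t : ℝ => G η L ((c : ℂ) + t * I)) := by
  unfold G
  fun_prop

/-- the Gaussian integral -/
lemma gauss {η : ℝ} (hη : 0 < η) (L c : ℝ) :
    ((η / Real.sqrt (2 * Real.pi) : ℝ) : ℂ) * ∫ t : ℝ, G η L ((c : ℂ) + t * I) =
      ((Real.exp (-(L ^ 2) / (2 * η ^ 2)) : ℝ) : ℂ) := by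
  have hη' : (η : ℂ) ≠ 0 := by exact_mod_cast hη.ne'
  have h1 : ∀ t : ℝ, G η L ((c : ℂ) + t * I) =
      cexp (((-(η ^ 2 / 2) : ℝ) : ℂ) * t ^ 2 + ((η : ℂ) ^ 2 * c * I + I * L) * t +
        ((η : ℂ) ^ 2 / 2 * c ^ 2 + c * L)) := by
    intro t
    unfold G
    congr 1
    push_cast
    have h2 : (I : ℂ) ^ 2 = -1 := I_sq
    linear_combination ((η : ℂ) ^ 2 / 2 * t ^ 2) * h2
  simp_rw [h1]
  rw [integral_cexp_quadratic (by
    rw [Complex.ofReal_re]
    have := pow_pos hη 2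
    linarith)]
  have h3 : ((η : ℂ) ^ 2 / 2 * c ^ 2 + c * L) - ((η : ℂ) ^ 2 * c * I + I * L) ^ 2 /
      (4 * ((-(η ^ 2 / 2) : ℝ) : ℂ)) = ((-(L ^ 2) / (2 * η ^ 2) : ℝ) : ℂ) := by
    push_cast
    field_simp
    have h2 : (I : ℂ) ^ 2 = -1 := I_sq
    ring_nf
    rw [h2]
    ring
  rw [h3]
  have h4 : ((Real.pi : ℂ) / -((-(η ^ 2 / 2) : ℝ) : ℂ)) ^ (1 / 2 : ℂ) =
      ((Real.sqrt (2 * Real.pi) / η : ℝ) : ℂ) := by
    have h5 : ((Real.pi : ℂ) / -((-(η ^ 2 / 2) : ℝ) : ℂ)) =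
        (((Real.sqrt (2 * Real.pi) / η) ^ 2 : ℝ) : ℂ) := by
      rw [div_pow, Real.sq_sqrt (by positivity)]
      push_cast
      field_simp
    rw [h5, show (1 / 2 : ℂ) = ((1 / 2 : ℝ) : ℂ) by push_cast; ring,
      ← Complex.ofReal_cpow (by positivity), ← Real.sqrt_eq_rpow,
      Real.sqrt_sq (by positivity)]
  rw [h4]
  rw [← mul_assoc, ← Complex.ofReal_mul, ← Complex.ofReal_exp]
  have h6 : η / Real.sqrt (2 * Real.pi) * (Real.sqrt (2 * Real.pi) / η) = 1 := by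
    have : 0 < Real.sqrt (2 * Real.pi) := by positivity
    field_simp
  rw [h6]
  simp

/-- the sum side -/
lemma sum_side {η : ℝ} (y : ℝ) (hη : 0 < η) :
    ((DG η y : ℝ) : ℂ) = ((η / Real.sqrt (2 * Real.pi) : ℝ) : ℂ) *
      ∫ t : ℝ, LSeries (fun n => (ArithmeticFunction.vonMangoldt n : ℂ)) ((2 : ℝ) + t * I) *
        G η (Real.log y) (((2 : ℝ) : ℂ) + t * I) := by
  set Λ : ℕ → ℂ := fun n => (ArithmeticFunction.vonMangoldt n : ℂ) with hΛ
  set F : ℕ → ℝ → ℂ := fun n t => LSeries.term Λ (((2 : ℝ) : ℂ) + t * I) n *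
    G η (Real.log y) (((2 : ℝ) : ℂ) + t * I) with hF
  have hnorm : ∀ n t, ‖F n t‖ = ‖LSeries.term Λ 2 n‖ *
      ‖G η (Real.log y) (((2 : ℝ) : ℂ) + t * I)‖ := by
    intro n t
    rw [hF, norm_mul]
    congr 1
    rw [LSeries.norm_term_eq, LSeries.norm_term_eq]
    simp
  have hint : ∀ n, Integrable (F n) := by
    intro n
    have hc : Continuous (F n) := by
      apply Continuous.mul _ (continuous_G _ _ _)
      rcases Nat.eq_zero_or_pos n with h0 | h0
      · subst h0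
        simp only [LSeries.term_zero]
        exact continuous_const
      · have : (fun t : ℝ => LSeries.term Λ (((2 : ℝ) : ℂ) + t * I) n) =
            fun t : ℝ => Λ n / (n : ℂ) ^ (((2 : ℝ) : ℂ) + t * I) := by
          funext t
          rw [LSeries.term_of_ne_zero h0.ne']
        rw [this]
        have hn : (n : ℂ) ≠ 0 := by exact_mod_cast h0.ne'
        refine continuous_const.div ?_ ?_
        · exact Continuous.const_cpow (by fun_prop) (Or.inl hn)
        · intro t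
          exact (Complex.cpow_ne_zero_iff_of_exponent_ne_zero (by
            intro h
            have := congrArg Complex.re h
            simp at this)).2 hn
    refine ⟨hc.aestronglyMeasurable, ?_⟩
    rw [← hasFiniteIntegral_norm_iff]
    simp_rw [hnorm]
    exact ((integrable_G hη _ _).const_mul _).hasFiniteIntegral
  have hsum : Summable (fun n => ∫ t, ‖F n t‖) := by
    simp_rw [hnorm, MeasureTheory.integral_const_mul]
    apply Summable.mul_right
    have h1 : LSeriesSummable Λ 2 := ArithmeticFunction.LSeriesSummable_vonMangoldt (by simp)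
    exact h1.norm
  have hmain := hasSum_integral_of_summable_integral_norm hint hsum
  have hval : ∀ n, ((η / Real.sqrt (2 * Real.pi) : ℝ) : ℂ) * ∫ t, F n t =
      ((ArithmeticFunction.vonMangoldt n *
        Real.exp (-(Real.log n - Real.log y) ^ 2 / (2 * η ^ 2)) : ℝ) : ℂ) := by
    intro n
    rcases Nat.eq_zero_or_pos n with h0 | h0
    · subst h0
      simp [hF]
    · have hn : (n : ℂ) ≠ 0 := by exact_mod_cast h0.ne'
      have h2 : ∀ t : ℝ, F n t = Λ n * G η (Real.log y - Real.log n) (((2 : ℝ) : ℂ) + t * I) := by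
        intro t
        simp only [hF]
        rw [LSeries.term_of_ne_zero h0.ne', div_eq_mul_inv, ← Complex.cpow_neg, mul_assoc]
        congr 1
        rw [Complex.cpow_def_of_ne_zero hn, G, G, ← Complex.exp_add, ← Complex.natCast_log]
        congr 1
        push_cast
        ring
      simp_rw [h2, MeasureTheory.integral_const_mul]
      rw [mul_left_comm, gauss hη]
      rw [hΛ]
      push_cast
      congr 2
      ring_nf
  have h3 := hmain.mul_left ((η / Real.sqrt (2 * Real.pi) : ℝ) : ℂ)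
  simp_rw [hval] at h3
  have h4 : ((DG η y : ℝ) : ℂ) = ∑' n : ℕ, ((ArithmeticFunction.vonMangoldt n *
        Real.exp (-(Real.log n - Real.log y) ^ 2 / (2 * η ^ 2)) : ℝ) : ℂ) := by
    rw [DG, Complex.ofReal_tsum]
  rw [h4, h3.tsum_eq]
  congr 1
  apply integral_congr_ae
  filter_upwards with t
  rw [hF]
  simp only
  rw [tsum_mul_right]
  rfl

lemma G_sub (η L x : ℝ) (hx : 0 < x) (s : ℂ) :
    G η (L - Real.log x) s = (x : ℂ) ^ (-s) * G η L s := by
  have hn : (x : ℂ) ≠ 0 := by exact_mod_cast hx.ne'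
  rw [Complex.cpow_def_of_ne_zero hn, G, G, ← Complex.exp_add, ← Complex.ofReal_log hx.le]
  congr 1
  push_cast
  ring

/-- the integral side -/
lemma int_side {η : ℝ} (y : ℝ) (hη : 0 < η) :
    ((MG η y : ℝ) : ℂ) = ((η / Real.sqrt (2 * Real.pi) : ℝ) : ℂ) *
      ∫ t : ℝ, 1 / ((((2 : ℝ) : ℂ) + t * I) - 1) *
        G η (Real.log y) (((2 : ℝ) : ℂ) + t * I) := by
  have h1 : ((MG η y : ℝ) : ℂ) = ∫ x in Set.Ioi (1 : ℝ),
      ((η / Real.sqrt (2 * Real.pi) : ℝ) : ℂ) *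
        ∫ t : ℝ, G η (Real.log y - Real.log x) (((2 : ℝ) : ℂ) + t * I) := by
    rw [MG, ← integral_complex_ofReal]
    apply integral_congr_ae
    filter_upwards with x
    rw [gauss hη]
    congr 2
    ring_nf
  rw [h1, MeasureTheory.integral_const_mul]
  congr 1
  have hint : Integrable (Function.uncurry fun (x t : ℝ) =>
      G η (Real.log y - Real.log x) (((2 : ℝ) : ℂ) + t * I))
      ((volume.restrict (Set.Ioi (1 : ℝ))).prod volume) := by
    have hb : Integrable (fun z : ℝ × ℝ => z.1 ^ (-2 : ℝ) *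
        ‖G η (Real.log y) (((2 : ℝ) : ℂ) + z.2 * I)‖)
        ((volume.restrict (Set.Ioi (1 : ℝ))).prod volume) :=
      Integrable.mul_prod (f := fun x : ℝ => x ^ (-2 : ℝ))
        (g := fun t : ℝ => ‖G η (Real.log y) (((2 : ℝ) : ℂ) + t * I)‖)
        (integrableOn_Ioi_rpow_of_lt (by norm_num) (by norm_num)) (integrable_G hη _ _)
    refine hb.mono' ?_ ?_
    · apply Measurable.aestronglyMeasurable
      unfold Function.uncurry G
      fun_prop
    · have h0 : ∀ᵐ z : ℝ × ℝ ∂((volume.restrict (Set.Ioi (1 : ℝ))).prod volume),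
          z.1 ∈ Set.Ioi (1 : ℝ) := by
        have := (ae_restrict_mem (μ := volume) (measurableSet_Ioi (a := (1 : ℝ))))
        exact Measure.quasiMeasurePreserving_fst.ae this
      filter_upwards [h0] with z hz
      have hz0 : 0 < z.1 := lt_trans one_pos hz
      rw [Function.uncurry_def]
      simp only
      rw [G_sub _ _ _ hz0, norm_mul, Complex.norm_cpow_eq_rpow_re_of_pos hz0]
      simp
  rw [integral_integral_swap hint]
  apply integral_congr_ae
  filter_upwards with t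
  have h2 : ∫ x in Set.Ioi (1 : ℝ), G η (Real.log y - Real.log x) (((2 : ℝ) : ℂ) + t * I) =
      ∫ x in Set.Ioi (1 : ℝ), (x : ℂ) ^ (-(((2 : ℝ) : ℂ) + t * I)) *
        G η (Real.log y) (((2 : ℝ) : ℂ) + t * I) := by
    apply setIntegral_congr_fun measurableSet_Ioi
    intro x hx
    exact G_sub _ _ _ (lt_trans one_pos hx) _
  rw [h2, MeasureTheory.integral_mul_const,
    integral_Ioi_cpow_of_lt (by simp) (by norm_num)]
  congr 1
  simp only [Complex.ofReal_one, Complex.one_cpow]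
  have h3 : ((2 : ℝ) : ℂ) + t * I - 1 ≠ 0 := by
    intro h
    have := congrArg Complex.re h
    norm_num at this
  have h4 : -(((2 : ℝ) : ℂ) + t * I) + 1 ≠ 0 := by
    intro h
    apply h3
    linear_combination -h
  field_simp
  ring

lemma log_le_exp {η : ℝ} (hη : 0 < η) (t : ℝ) :
    Real.log (|t| + 3) ≤ (3 + 1 / η ^ 2) * Real.exp (η ^ 2 / 4 * t ^ 2) := by
  have h1 : Real.log (|t| + 3) ≤ |t| + 3 := by
    have h0 : 0 < |t| + 3 := by positivity
    have := Real.log_le_sub_one_of_pos h0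
    linarith
  have h2 : |t| ≤ 1 / η ^ 2 + η ^ 2 / 4 * t ^ 2 := by
    have h3 : 0 ≤ (1 / η - η * |t| / 2) ^ 2 := sq_nonneg _
    have h4 : (1 / η - η * |t| / 2) ^ 2 = 1 / η ^ 2 + η ^ 2 / 4 * t ^ 2 - |t| := by
      rw [sub_sq, div_pow, div_pow, mul_pow, sq_abs]
      field_simp
      ring
    linarith
  have h5 : 1 + η ^ 2 / 4 * t ^ 2 ≤ Real.exp (η ^ 2 / 4 * t ^ 2) := by
    have := Real.add_one_le_exp (η ^ 2 / 4 * t ^ 2)
    linarith
  have h6 : 0 < 1 / η ^ 2 := by positivity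
  have h7 : 0 ≤ η ^ 2 / 4 * t ^ 2 := by positivity
  calc Real.log (|t| + 3) ≤ (3 + 1 / η ^ 2) * (1 + η ^ 2 / 4 * t ^ 2) := by nlinarith
    _ ≤ _ := mul_le_mul_of_nonneg_left h5 (by positivity)

lemma bound_G {η : ℝ} (L : ℝ) (s : ℂ) (h1 : 0 ≤ s.re) (h2 : s.re ≤ 2) :
    ‖G η L s‖ ≤ Real.exp (2 * η ^ 2 + 2 * |L|) * Real.exp (-(η ^ 2 / 2) * s.im ^ 2) := by
  have h3 := norm_G η L s.re s.im
  rw [Complex.re_add_im] at h3
  rw [h3]
  apply mul_le_mul_of_nonneg_right _ (Real.exp_nonneg _)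
  apply Real.exp_le_exp.2
  have h4 : s.re ^ 2 ≤ 4 := by nlinarith
  have h5 : s.re * L ≤ 2 * |L| := by
    calc s.re * L ≤ |s.re * L| := le_abs_self _
      _ = s.re * |L| := by rw [abs_mul, abs_of_nonneg h1]
      _ ≤ 2 * |L| := mul_le_mul_of_nonneg_right h2 (abs_nonneg _)
  have h6 : η ^ 2 / 2 * s.re ^ 2 ≤ η ^ 2 / 2 * 4 :=
    mul_le_mul_of_nonneg_left h4 (by positivity)
  linarith

lemma hyp {A : ℂ → ℂ} (hA : IsA A) {σ₀ η : ℝ} (L : ℝ) (h1 : 1 / 2 < σ₀) (h2 : σ₀ < 1)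
    (hη : 0 < η) : ∃ K : ℝ,
    (∀ z : ℂ, z.im ∈ Set.uIcc (-σ₀) (-2) →
      DifferentiableAt ℂ (fun z => A (I * z) * G η L (I * z)) z) ∧
    (∀ z : ℂ, z.im ∈ Set.uIcc (-σ₀) (-2) →
      ‖(fun z => A (I * z) * G η L (I * z)) z‖ ≤ K * Real.exp (-(η ^ 2 / 4) * z.re ^ 2)) := by
  obtain ⟨C, hC, hb⟩ := hA.bound σ₀ h1
  have hab : ∀ z : ℂ, z.im ∈ Set.uIcc (-σ₀) (-2) → σ₀ ≤ (I * z).re ∧ (I * z).re ≤ 2 := by
    intro z hz
    rw [Set.uIcc_of_ge (by linarith)] at hz
    have h3 : (I * z).re = -z.im := by simp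
    rw [h3]
    constructor
    · linarith [hz.2]
    · linarith [hz.1]
  refine ⟨C * ((3 + 1 / η ^ 2) * Real.exp (2 * η ^ 2 + 2 * |L|)), ?_, ?_⟩
  · intro z hz
    obtain ⟨h3, h4⟩ := hab z hz
    have hd : DifferentiableAt ℂ A (I * z) := by
      apply (hA.diff (I * z) (by
        change 1 / 2 < (I * z).re
        linarith)).differentiableAt
      exact (isOpen_lt continuous_const Complex.continuous_re).mem_nhds (by
        change 1 / 2 < (I * z).re
        linarith)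
    have hI : DifferentiableAt ℂ (fun z : ℂ => I * z) z := by fun_prop
    apply DifferentiableAt.mul
    · exact DifferentiableAt.comp z hd hI
    · unfold G
      fun_prop
  · intro z hz
    obtain ⟨h3, h4⟩ := hab z hz
    have him : (I * z).im = z.re := by simp
    have h5 := hb (I * z) h3 h4
    have h6 := bound_G (η := η) L (I * z) (by linarith) h4
    rw [him] at h5 h6
    have h7 := log_le_exp hη z.re
    simp only [norm_mul]
    calc ‖A (I * z)‖ * ‖G η L (I * z)‖ ≤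
        (C * ((3 + 1 / η ^ 2) * Real.exp (η ^ 2 / 4 * z.re ^ 2))) *
          (Real.exp (2 * η ^ 2 + 2 * |L|) * Real.exp (-(η ^ 2 / 2) * z.re ^ 2)) := by
          apply mul_le_mul _ h6 (norm_nonneg _) (by positivity)
          exact h5.trans (mul_le_mul_of_nonneg_left h7 hC.le)
      _ = C * ((3 + 1 / η ^ 2) * Real.exp (2 * η ^ 2 + 2 * |L|)) *
          (Real.exp (η ^ 2 / 4 * z.re ^ 2) * Real.exp (-(η ^ 2 / 2) * z.re ^ 2)) := by ring
      _ = _ := by
          rw [← Real.exp_add]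
          congr 2
          ring

lemma e1 (c t : ℝ) : I * ((t : ℂ) + ((-c : ℝ) : ℂ) * I) = (c : ℂ) + t * I := by
  push_cast
  have h3 : (I : ℂ) ^ 2 = -1 := I_sq
  linear_combination (-(c : ℂ)) * h3

lemma shift {A : ℂ → ℂ} (hA : IsA A) {σ₀ η : ℝ} (L : ℝ) (h1 : 1 / 2 < σ₀) (h2 : σ₀ < 1)
    (hη : 0 < η) :
    ∫ t : ℝ, A ((σ₀ : ℂ) + t * I) * G η L ((σ₀ : ℂ) + t * I) =
      ∫ t : ℝ, A (((2 : ℝ) : ℂ) + t * I) * G η L (((2 : ℝ) : ℂ) + t * I) := by
  obtain ⟨K, ha, hb⟩ := hyp hA L h1 h2 hη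
  have key := Pool.Agent.Helper242.KK.shift_line (δ := η ^ 2 / 4) (by positivity) ha hb
  simp only [e1] at key
  exact key

/-- integrability on the line `Re s = 2` -/
lemma integrable_two {A : ℂ → ℂ} (hA : IsA A) {σ₀ η : ℝ} (L : ℝ) (h1 : 1 / 2 < σ₀)
    (h2 : σ₀ < 1) (hη : 0 < η) :
    Integrable (fun t : ℝ => A (((2 : ℝ) : ℂ) + t * I) * G η L (((2 : ℝ) : ℂ) + t * I)) := by
  obtain ⟨K, ha, hb⟩ := hyp hA L h1 h2 hη
  have key := Pool.Agent.Helper242.KK.shift_line_integrable (δ := η ^ 2 / 4) (by positivity)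
    ha hb Set.right_mem_uIcc
  simp only [e1] at key
  exact key

lemma integrable_pole {η : ℝ} (L : ℝ) (hη : 0 < η) :
    Integrable (fun t : ℝ => 1 / ((((2 : ℝ) : ℂ) + t * I) - 1) *
      G η L (((2 : ℝ) : ℂ) + t * I)) := by
  refine (integrable_G hη L 2).mono' ?_ ?_
  · apply Measurable.aestronglyMeasurable
    unfold G
    fun_prop
  · filter_upwards with t
    rw [norm_mul]
    have h1 : 1 ≤ ‖(((2 : ℝ) : ℂ) + t * I) - 1‖ := by
      calc (1 : ℝ) = |((((2 : ℝ) : ℂ) + t * I) - 1).re| := by norm_num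
        _ ≤ _ := Complex.abs_re_le_norm _
    have h2 : ‖1 / ((((2 : ℝ) : ℂ) + t * I) - 1)‖ ≤ 1 := by
      rw [norm_div, norm_one]
      exact div_le_one_of_le₀ h1 (norm_nonneg _)
    calc _ ≤ 1 * ‖G η L (((2 : ℝ) : ℂ) + t * I)‖ := mul_le_mul_of_nonneg_right h2 (norm_nonneg _)
      _ = _ := one_mul _

/-- task GI -/
theorem gi : T_GI := by
  intro A hA σ₀ η y h1 h2 hη _ _
  have h3 := shift hA (Real.log y) h1 h2 hη
  have h4 := sum_side y hη
  have h5 := int_side y hη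
  have h6 : ∀ t : ℝ, LSeries (fun n => (ArithmeticFunction.vonMangoldt n : ℂ))
      (((2 : ℝ) : ℂ) + t * I) * G η (Real.log y) (((2 : ℝ) : ℂ) + t * I) =
      A (((2 : ℝ) : ℂ) + t * I) * G η (Real.log y) (((2 : ℝ) : ℂ) + t * I) +
      1 / ((((2 : ℝ) : ℂ) + t * I) - 1) * G η (Real.log y) (((2 : ℝ) : ℂ) + t * I) := by
    intro t
    rw [hA.eq _ (by simp)]
    ring
  simp_rw [h6] at h4
  rw [integral_add (integrable_two hA _ h1 h2 hη) (integrable_pole _ hη), mul_add, ← h5,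
    ← h3] at h4
  rw [Complex.ofReal_sub, h4, add_sub_cancel_right]
  rfl

end Pool.Agent.W475.MO
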